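import Mathlib

namespace Pool.Agent.H.MP_4f5d8b_al

open FirstOrder

abbrev Lg : FirstOrder.Language :=
  FirstOrder.Language.mk (fun n => Fin (if n = 0 then 1 else if n = 2 then 3 else 0))
    (fun _ => Empty)

structure Lp (X : Type) where
  mul : X → X → X
  ldiv : X → X → X
  rdiv : X → X → X
  e : X

def Lp.op {X : Type} (P : Lp X) (n j : ℕ) (v : Fin n → X) : X :=
  if h : n = 2 then
    if j = 0 then P.mul (v ⟨0, by omega⟩) (v ⟨1, by omega⟩)
    else if j = 1 then P.ldiv (v ⟨0, by omega⟩) (v ⟨1, by omega⟩)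
    else P.rdiv (v ⟨0, by omega⟩) (v ⟨1, by omega⟩)
  else P.e

@[reducible] def Lp.str {X : Type} (P : Lp X) : Lg.Structure X where
  funMap := fun {n} f v => P.op n (Fin.val f) v
  RelMap := fun r _ => Empty.elim r

def Lp.ev {X : Type} (P : Lp X) (v : ℕ → X) (t : Lg.Term ℕ) : X :=
  @FirstOrder.Language.Term.realize Lg X P.str ℕ v t

theorem ev_var {X : Type} (P : Lp X) (v : ℕ → X) (i : ℕ) : P.ev v (.var i) = v i := rfl

theorem ev_func {X : Type} (P : Lp X) (v : ℕ → X) {n : ℕ} (f : Lg.Functions n)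
    (ts : Fin n → Lg.Term ℕ) :
    P.ev v (.func f ts) = P.op n (Fin.val f) fun i => P.ev v (ts i) := rfl

structure IsHom {X Y : Type} (P : Lp X) (P' : Lp Y) (φ : X → Y) : Prop where
  mul : ∀ x y, φ (P.mul x y) = P'.mul (φ x) (φ y)
  ldiv : ∀ x y, φ (P.ldiv x y) = P'.ldiv (φ x) (φ y)
  rdiv : ∀ x y, φ (P.rdiv x y) = P'.rdiv (φ x) (φ y)
  e : φ P.e = P'.e

theorem ev_hom {X Y : Type} {P : Lp X} {P' : Lp Y} {φ : X → Y} (h : IsHom P P' φ) (v : ℕ → X)
    (t : Lg.Term ℕ) : φ (P.ev v t) = P'.ev (fun i => φ (v i)) t := by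
  induction t with
  | var i => rfl
  | func f ts ih =>
    simp only [ev_func]
    generalize Fin.val f = j
    simp only [Lp.op]
    split_ifs
    · rw [h.mul, ih, ih]
    · rw [h.ldiv, ih, ih]
    · rw [h.rdiv, ih, ih]
    · exact h.e

theorem ev_bound (t : Lg.Term ℕ) : ∃ N : ℕ, ∀ (X : Type) (P : Lp X) (v v' : ℕ → X),
    (∀ i < N, v i = v' i) → P.ev v t = P.ev v' t := by
  induction t with
  | var i => exact ⟨i + 1, fun X P v v' h => h i (by omega)⟩
  | func f ts ih =>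
    choose N hN using ih
    refine ⟨Finset.univ.sup N, fun X P v v' h => ?_⟩
    rw [ev_func, ev_func]
    congr 1
    funext i
    exact hN i X P v v' fun j hj => h j (hj.trans_le (Finset.le_sup (Finset.mem_univ i)))

def ext {X C : Type} [AddCommGroup C] (P : Lp X) (g : X → X → C) : Lp (X × C) where
  mul x y := (P.mul x.1 y.1, x.2 + y.2 + g x.1 y.1)
  ldiv x y := (P.ldiv x.1 y.1, y.2 - x.2 - g x.1 (P.ldiv x.1 y.1))
  rdiv y x := (P.rdiv y.1 x.1, y.2 - x.2 - g (P.rdiv y.1 x.1) x.1)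
  e := (P.e, 0)

def ab (C : Type) [AddCommGroup C] : Lp C where
  mul x y := x + y
  ldiv x y := y - x
  rdiv y x := y - x
  e := 0

theorem ext_fst {X C : Type} [AddCommGroup C] (P : Lp X) (g : X → X → C) :
    IsHom (ext P g) P Prod.fst := ⟨fun _ _ => rfl, fun _ _ => rfl, fun _ _ => rfl, rfl⟩

def hat {X C : Type} [AddCommGroup C] (P : Lp X) (g : X → X → C) (v : ℕ → X) (t : Lg.Term ℕ) :
    C := ((ext P g).ev (fun i => (v i, 0)) t).2

theorem ev_snd {X Y C ι : Type} [CommRing C] [Fintype ι] {P : Lp X} {P' : Lp Y} (G : Y → Y → C)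
    {φ : ι → X → Y} (hφ : ∀ j, IsHom P P' (φ j)) (c : ι → C) (w : ℕ → X × C) (t : Lg.Term ℕ) :
    ((ext P fun x y => ∑ j, c j * G (φ j x) (φ j y)).ev w t).2 =
      (ab C).ev (fun i => (w i).2) t + ∑ j, c j * hat P' G (fun i => φ j (w i).1) t := by
  have h1 : ∀ j t, φ j ((ext P fun x y => ∑ j, c j * G (φ j x) (φ j y)).ev w t).1 =
      ((ext P' G).ev (fun i => (φ j (w i).1, 0)) t).1 := fun j t => by
    rw [ev_hom (ext_fst _ _), ev_hom (ext_fst _ _), ev_hom (hφ j)]
  induction t with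
  | var i => simp [ev_var, hat]
  | func f ts ih =>
    simp only [hat] at ih ⊢
    simp only [ev_func]
    generalize Fin.val f = j
    simp only [Lp.op]
    split_ifs
    · change _ + _ + ∑ j, _ = (_ + _) + ∑ j, c j * (_ + _ + G _ _)
      simp only [ih, h1, mul_add, Finset.sum_add_distrib]
      ring
    · change _ - _ - ∑ j, c j * G _ (φ j (P.ldiv _ _)) =
        (_ - _) + ∑ j, c j * (_ - _ - G _ (P'.ldiv _ _))
      simp only [ih, (hφ _).ldiv, h1, mul_sub, Finset.sum_sub_distrib]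
      ring
    · change _ - _ - ∑ j, c j * G (φ j (P.rdiv _ _)) _ =
        (_ - _) + ∑ j, c j * (_ - _ - G (P'.rdiv _ _) _)
      simp only [ih, (hφ _).rdiv, h1, mul_sub, Finset.sum_sub_distrib]
      ring
    · simp [ext, ab]

theorem ab_zero {C : Type} [AddCommGroup C] (t : Lg.Term ℕ) : (ab C).ev (fun _ => 0) t = 0 := by
  induction t with
  | var i => rfl
  | func f ts ih =>
    simp only [ev_func, ih]
    generalize Fin.val f = j
    simp only [Lp.op]
    split_ifs <;> simp [ab]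

end Pool.Agent.H.MP_4f5d8b_al
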