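import Pool.Agent.H.MP_4f5d8b_al.A

namespace Pool.Agent.H.MP_4f5d8b_al

def ff (a a' : ZMod 3) : ZMod 2 := if a = 1 ∧ a' = 1 then 1 else 0
def chi (b : ZMod 2) : ZMod 3 := if b = 0 then 1 else -1
def io (a : ZMod 3) : ZMod 3 := if a = 1 then 1 else 0
def GG (x y : ZMod 3 × ZMod 2) : ZMod 3 := (chi x.2 - 1) * io y.1

def QQ : Lp (ZMod 3 × ZMod 2) := ext (ab (ZMod 3)) ff
def Q2 : Lp (ZMod 3 × ZMod 2 × ZMod 2) := ext (ab (ZMod 3)) fun a a' => (ff a a', ff a a')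
def pj (j : Bool) (x : ZMod 3 × ZMod 2 × ZMod 2) : ZMod 3 × ZMod 2 :=
  (x.1, if j then x.2.1 else x.2.2)
def cc (j : Bool) : ZMod 3 := if j then 1 else -1
def LL : Lp ((ZMod 3 × ZMod 2 × ZMod 2) × ZMod 3) :=
  ext Q2 fun x y => ∑ j, cc j * GG (pj j x) (pj j y)

abbrev MT (k : ℕ) := ((Fin k → ZMod 3) →+ ZMod 3) × ((Fin k → ZMod 3) → ZMod 2)
def MM (k : ℕ) : Lp (MT k) := ext (ab _) fun α α' a => ff (α a) (α' a)
def ph {k : ℕ} (a : Fin k → ZMod 3) (x : MT k) : ZMod 3 × ZMod 2 := (x.1 a, x.2 a)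
def KK (k : ℕ) : Lp (MT k × ZMod 3) := ext (MM k) fun x y => ∑ a, 1 * GG (ph a x) (ph a y)

theorem pj_hom (j : Bool) : IsHom Q2 QQ (pj j) := by
  cases j <;> exact ⟨fun _ _ => rfl, fun _ _ => rfl, fun _ _ => rfl, rfl⟩

theorem ph_hom {k : ℕ} (a : Fin k → ZMod 3) : IsHom (MM k) QQ (ph a) :=
  ⟨fun _ _ => rfl, fun _ _ => rfl, fun _ _ => rfl, rfl⟩

theorem sum_inv {k : ℕ} (ψ : (Fin k → ZMod 3) → ZMod 3) {κ : Fin k → ZMod 3} (hκ : κ ≠ 0)
    (h : ∀ a, ψ (a + κ) = ψ a) : ∑ a, ψ a = 0 := by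
  obtain ⟨j, hj⟩ := Function.ne_iff.1 hκ
  have h1 : ∑ a, ψ (a + κ) * (a + κ) j = ∑ a, ψ a * a j :=
    Equiv.sum_comp (Equiv.addRight κ) fun a => ψ a * a j
  simp only [h, Pi.add_apply, mul_add, Finset.sum_add_distrib, ← Finset.sum_mul] at h1
  have : Fact (Nat.Prime 3) := ⟨Nat.prime_three⟩
  exact (mul_eq_zero.1 (add_eq_left.1 h1)).resolve_right hj

theorem transfer {s t : Lg.Term ℕ} (h : ∀ v, LL.ev v s = LL.ev v t) {N : ℕ}
    (hs : ∀ (X : Type) (P : Lp X) (v v' : ℕ → X), (∀ i < N, v i = v' i) → P.ev v s = P.ev v' s)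
    (ht : ∀ (X : Type) (P : Lp X) (v v' : ℕ → X), (∀ i < N, v i = v' i) → P.ev v t = P.ev v' t)
    {k : ℕ} (hk : N < k) (w : ℕ → MT k × ZMod 3) : (KK k).ev w s = (KK k).ev w t := by
  have hQ : ∀ v, QQ.ev v s = QQ.ev v t := fun v => by
    have := congrArg (fun x => pj true x.1) (h fun i => (((v i).1, (v i).2, (v i).2), 0))
    simp only [LL, ev_hom (ext_fst _ _), ev_hom (pj_hom true)] at this
    exact this
  have hL : ∀ (v : ℕ → ZMod 3 × ZMod 2 × ZMod 2) (c : ℕ → ZMod 3),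
      (ab _).ev c s + (hat QQ GG (fun i => pj true (v i)) s - hat QQ GG (fun i => pj false (v i)) s)
      = (ab _).ev c t +
        (hat QQ GG (fun i => pj true (v i)) t - hat QQ GG (fun i => pj false (v i)) t) := by
    intro v c
    have := congrArg Prod.snd (h fun i => (v i, c i))
    have := (ev_snd GG pj_hom cc _ s).symm.trans (this.trans (ev_snd GG pj_hom cc _ t))
    simpa [cc, sub_eq_add_neg] using this
  have hlin : ∀ c : ℕ → ZMod 3, (ab _).ev c s = (ab _).ev c t := fun c => by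
    have := hL (fun _ => 0) c
    simpa [pj] using this
  have hD : ∀ v v' : ℕ → ZMod 3 × ZMod 2, (∀ i < N, (v i).1 = (v' i).1) →
      hat QQ GG v s - hat QQ GG v t = hat QQ GG v' s - hat QQ GG v' t := by
    intro v v' hv
    have h1 := hL (fun i => ((v i).1, (v i).2, (v' i).2)) fun _ => 0
    have h2 : ∀ i < N, ((pj false ((v i).1, (v i).2, (v' i).2), 0) : _ × ZMod 3) = (v' i, 0) :=
      fun i hi => by simp [pj, hv i hi]
    rw [ab_zero, ab_zero, zero_add, zero_add] at h1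
    simp only [hat] at h1 ⊢
    rw [hs _ _ _ _ h2, ht _ _ _ _ h2] at h1
    simp only [pj, if_true] at h1
    linear_combination h1
  refine Prod.ext ?_ ?_
  · have : ∀ a, ph a ((KK k).ev w s).1 = ph a ((KK k).ev w t).1 := fun a => by
      simp only [KK, ev_hom (ext_fst _ _), ev_hom (ph_hom a), hQ]
    exact Prod.ext (AddMonoidHom.ext fun a => congrArg Prod.fst (this a))
      (funext fun a => congrArg Prod.snd (this a))
  · refine (ev_snd GG ph_hom (fun _ => 1) w s).trans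
      (Eq.trans ?_ (ev_snd GG ph_hom (fun _ => 1) w t).symm)
    simp only [hlin, one_mul]
    congr 1
    rw [← sub_eq_zero, ← Finset.sum_sub_distrib]
    obtain ⟨a, a', hne, he⟩ := Fintype.exists_ne_map_eq_of_card_lt
      (fun (a : Fin k → ZMod 3) (i : Fin N) => (w i).1.1 a)
      (by simpa using Nat.pow_lt_pow_right (by norm_num) hk)
    refine sum_inv _ (sub_ne_zero.2 hne) fun b => hD _ _ fun i hi => ?_
    have := congrFun he ⟨i, hi⟩
    simp only [ph, map_add, map_sub] at this ⊢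
    rw [this, sub_self, add_zero]

def tm (s t : Lg.Term ℕ) : Lg.Term ℕ := .func (l := 2) (0 : Fin 3) ![s, t]

theorem ev_tm {X : Type} (P : Lp X) (v : ℕ → X) (s t : Lg.Term ℕ) :
    P.ev v (tm s t) = P.mul (P.ev v s) (P.ev v t) := rfl

def uu (x : Lg.Term ℕ) : Lg.Term ℕ := tm (tm x x) (tm (tm x x) (tm x x))

def UU : ℕ → Lg.Term ℕ
  | 0 => .func (l := 0) (0 : Fin 1) ![]
  | k + 1 => tm (uu (.var (k + 1))) (UU k)

def be (a : ZMod 3) : ZMod 2 := if a = 0 then 0 else 1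

theorem uu_Q (v : ℕ → ZMod 3 × ZMod 2) (i : ℕ) : QQ.ev v (uu (.var i)) = (0, be (v i).1) := by
  simp only [uu, ev_tm, ev_var]
  generalize v i = x
  revert x
  decide

theorem UU_Q (v : ℕ → ZMod 3 × ZMod 2) (k : ℕ) :
    QQ.ev v (UU k) = (0, ∑ j ∈ Finset.range k, be (v (j + 1)).1) := by
  induction k with
  | zero => rfl
  | succ k ih =>
    rw [UU, ev_tm, ih, uu_Q, Finset.sum_range_succ]
    simp [QQ, ext, ab, ff, add_comm]

theorem comm_L (x y : (ZMod 3 × ZMod 2 × ZMod 2) × ZMod 3) (h0 : x.1.1 = 0)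
    (h1 : x.1.2.1 = x.1.2.2) : LL.mul x y = LL.mul y x := by
  have e3 : io 0 = 0 := rfl
  simp [LL, Q2, ext, ab, ff, GG, pj, cc, e3, h0, h1, add_comm]

theorem id_L (k : ℕ) (v : ℕ → (ZMod 3 × ZMod 2 × ZMod 2) × ZMod 3) :
    LL.ev v (tm (UU k) (.var 0)) = LL.ev v (tm (.var 0) (UU k)) := by
  have h : ∀ j, pj j (LL.ev v (UU k)).1 = (0, ∑ i ∈ Finset.range k, be (v (i + 1)).1.1) :=
    fun j => by
      rw [LL, ev_hom (ext_fst _ _), ev_hom (pj_hom j), UU_Q]; rfl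
  rw [ev_tm, ev_tm]
  exact comm_L _ _ (congrArg Prod.fst (h true))
    ((congrArg Prod.snd (h true)).trans (congrArg Prod.snd (h false)).symm)

theorem chi_sum {ι : Type} (s : Finset ι) (b : ι → ZMod 2) :
    chi (∑ i ∈ s, b i) = ∏ i ∈ s, chi (b i) := by
  have : ∀ x y, chi (x + y) = chi x * chi y := by decide
  induction s using Finset.cons_induction with
  | empty => rfl
  | cons i s hi ih => rw [Finset.sum_cons, Finset.prod_cons, this, ih]

theorem not_id_K (k : ℕ) : ∃ w, (KK (k + 2)).ev w (tm (UU (k + 1)) (.var 0)) ≠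
    (KK (k + 2)).ev w (tm (.var 0) (UU (k + 1))) := by
  let w : ℕ → MT (k + 2) × ZMod 3 := fun i =>
    ((if h : i < k + 2 then Pi.evalAddMonoidHom (fun _ => ZMod 3) ⟨i, h⟩ else 0, 0), 0)
  refine ⟨w, fun h => ?_⟩
  have hU : ∀ a, ph a ((KK (k + 2)).ev w (UU (k + 1))).1 =
      (0, ∑ j : Fin (k + 1), be (a j.succ)) := fun a => by
    rw [KK, ev_hom (ext_fst _ _), ev_hom (ph_hom a), UU_Q, Finset.sum_range]
    congr 1
    refine Finset.sum_congr rfl fun j _ => ?_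
    have : (j : ℕ) + 1 < k + 2 := by omega
    simp only [ph, w, dif_pos this]
    rfl
  have h0 : ∀ a, ph a (w 0).1 = (a 0, 0) := fun a => by
    simp [ph, w]
  have h1 := congrArg Prod.snd h
  rw [ev_tm, ev_tm, ev_var] at h1
  change _ + _ + ∑ a, 1 * GG (ph a _) (ph a _) = _ + _ + ∑ a, 1 * GG (ph a _) (ph a _) at h1
  simp only [hU, h0, GG, chi_sum, one_mul, sub_mul, Finset.sum_sub_distrib] at h1
  have e1 : ∑ a : Fin (k + 2) → ZMod 3, (∏ j : Fin (k + 1), chi (be (a j.succ))) * io (a 0) =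
      (-1) ^ (k + 1) := by
    have := Finset.prod_univ_sum (fun _ : Fin (k + 2) => (Finset.univ : Finset (ZMod 3)))
      (fun i x => (Fin.cons (io x) (fun _ => chi (be x)) : Fin (k + 2) → ZMod 3) i)
    simp only [Fintype.piFinset_univ, Fin.prod_univ_succ (n := k + 1), Fin.cons_zero,
      Fin.cons_succ] at this
    have a1 : ∑ x : ZMod 3, io x = 1 := by decide
    have a2 : ∑ x : ZMod 3, chi (be x) = -1 := by decide
    rw [a1, a2] at this
    simpa [mul_comm] using this.symm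
  have e2 : ∑ a : Fin (k + 2) → ZMod 3, io (a 0) = 0 :=
    sum_inv (fun a => io (a 0)) (κ := Pi.single 1 1) (by simp) fun a => by simp
  have e3 : io 0 = 0 := rfl
  have e4 : chi 0 = 1 := rfl
  rw [e1, e2] at h1
  simp only [e3, e4, mul_zero, Finset.sum_const_zero, sub_zero, add_zero] at h1
  rw [add_comm (w 0).2, add_eq_left] at h1
  have : Fact (Nat.Prime 3) := ⟨Nat.prime_three⟩
  simp at h1

end Pool.Agent.H.MP_4f5d8b_al
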