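import Pool.Agent.H.MP_4f5d8b_al.B

namespace Pool.Agent.H.MP_4f5d8b_al

abbrev LT := (ZMod 3 × ZMod 2 × ZMod 2) × ZMod 3

def IsLoop {X : Type} (P : Lp X) : Prop :=
  ∀ x y : X, P.mul x (P.ldiv x y) = y ∧ P.ldiv x (P.mul x y) = y ∧
    P.mul (P.rdiv y x) x = y ∧ P.rdiv (P.mul y x) x = y

theorem ab_loop (C : Type) [AddCommGroup C] : IsLoop (ab C) := fun x y => by simp [ab]

theorem ext_loop {X C : Type} [AddCommGroup C] {P : Lp X} (h : IsLoop P) (g : X → X → C) :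
    IsLoop (ext P g) := fun x y => by
  obtain ⟨h1, h2, h3, h4⟩ := h x.1 y.1
  refine ⟨Prod.ext h1 ?_, Prod.ext h2 ?_, Prod.ext h3 ?_, Prod.ext h4 ?_⟩ <;>
    simp only [ext, h1, h2, h3, h4] <;> abel

theorem LL_loop : IsLoop LL := ext_loop (ext_loop (ab_loop _) _) _

theorem LL_unit : ∀ x : LT, LL.mul LL.e x = x ∧ LL.mul x LL.e = x := by decide

def ZZ : ℕ → Set LT
  | 0 => {LL.e}
  | k + 1 => {a | ∀ x y,
      (∃ z ∈ ZZ k, LL.mul a x = LL.mul (LL.mul x a) z) ∧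
      (∃ z ∈ ZZ k, LL.mul (LL.mul a x) y = LL.mul (LL.mul a (LL.mul x y)) z) ∧
      (∃ z ∈ ZZ k, LL.mul (LL.mul x a) y = LL.mul (LL.mul x (LL.mul a y)) z) ∧
      (∃ z ∈ ZZ k, LL.mul (LL.mul x y) a = LL.mul (LL.mul x (LL.mul y a)) z)}

theorem ex_z {S : Set LT} {p q : LT} (h : LL.ldiv q p ∈ S) : ∃ z ∈ S, p = LL.mul q z :=
  ⟨_, h, (LL_loop q p).1.symm⟩

theorem Q2_self : ∀ x, Q2.ldiv x x = 0 := by decide
theorem Q2_zero : ∀ x, Q2.mul 0 x = x ∧ Q2.mul x 0 = x := by decide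

theorem cen (c : ZMod 3) (x : LT) : LL.mul (0, c) x = (x.1, x.2 + c) ∧
    LL.mul x (0, c) = (x.1, x.2 + c) := by
  revert c x; decide

theorem Z1 {a : LT} (h : a.1 = 0) : a ∈ ZZ 1 := by
  obtain ⟨a, c⟩ := a
  obtain rfl : a = 0 := h
  intro x y
  refine ⟨⟨_, rfl, ?_⟩, ⟨_, rfl, ?_⟩, ⟨_, rfl, ?_⟩, ⟨_, rfl, ?_⟩⟩ <;>
    simp only [(LL_unit _).2, (cen c _).1, (cen c _).2] <;>
    refine Prod.ext rfl ?_ <;> simp only [LL, ext] <;> ring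

theorem Q2_cen : ∀ (b : ZMod 2 × ZMod 2) (x : ZMod 3 × ZMod 2 × ZMod 2),
    Q2.mul (0, b) x = (x.1, x.2 + b) ∧ Q2.mul x (0, b) = (x.1, x.2 + b) := by decide

theorem Z2 {a : LT} (h : a.1.1 = 0) : a ∈ ZZ 2 := by
  obtain ⟨⟨a, b⟩, c⟩ := a
  obtain rfl : a = 0 := h
  have key : ∀ p q : LT, p.1 = q.1 → ∃ z ∈ ZZ 1, p = LL.mul q z := fun p q h =>
    ex_z (Z1 (by change Q2.ldiv q.1 p.1 = 0; rw [h, Q2_self]))
  have hm : ∀ p q : LT, (LL.mul p q).1 = Q2.mul p.1 q.1 := fun _ _ => rfl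
  intro x y
  refine ⟨key _ _ ?_, key _ _ ?_, key _ _ ?_, key _ _ ?_⟩ <;>
    simp only [hm, (Q2_cen b _).1, (Q2_cen b _).2] <;>
    refine Prod.ext rfl ?_ <;> simp only [Q2, ext] <;> abel

theorem Z3 (a : LT) : a ∈ ZZ 3 := by
  have key : ∀ p q : LT, p.1.1 = q.1.1 → ∃ z ∈ ZZ 2, p = LL.mul q z := fun p q h =>
    ex_z (Z2 (by change p.1.1 - q.1.1 = 0; rw [h, sub_self]))
  have hm : ∀ p q : LT, (LL.mul p q).1.1 = p.1.1 + q.1.1 := fun _ _ => rfl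
  intro x y
  refine ⟨key _ _ ?_, key _ _ ?_, key _ _ ?_, key _ _ ?_⟩ <;> simp only [hm] <;> ring

theorem nfb : ¬ ∃ B : Finset (Lg.Term ℕ × Lg.Term ℕ),
    (∀ p ∈ B, ∀ v, LL.ev v p.1 = LL.ev v p.2) ∧
    ∀ (M : Type) (P : Lp M), (∀ p ∈ B, ∀ w, P.ev w p.1 = P.ev w p.2) →
      ∀ t s : Lg.Term ℕ, (∀ v, LL.ev v t = LL.ev v s) → ∀ w, P.ev w t = P.ev w s := by
  rintro ⟨B, h1, h2⟩
  choose N hN using ev_bound
  let k := B.sup fun p => N p.1 + N p.2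
  obtain ⟨w, hw⟩ := not_id_K k
  refine hw (h2 _ (KK (k + 2)) (fun p hp => ?_) _ _ (id_L (k + 1)) w)
  have hk : N p.1 + N p.2 ≤ k := Finset.le_sup (f := fun p => N p.1 + N p.2) hp
  exact transfer (h1 p hp) (N := k)
    (fun X P v v' h => hN _ X P v v' fun i hi => h i (by omega))
    (fun X P v v' h => hN _ X P v v' fun i hi => h i (by omega)) (by omega)

end Pool.Agent.H.MP_4f5d8b_al
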